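import Pool.Agent.T9h83.RG.Main

/-!
# MP_be70a4_pr, Q1: there is no threshold constant

If the points are linearly independent over `ℚ`, every cycle of the graph of known distances is
reconstructible.  For every `κ > 0` the random graph `G(n, (1 + κ / ln n) / n)` has a cycle with at
least `κ² / 384 · n / ln² n` vertices with high probability (depth first search and sprinkling).
Hence part (ii) of Q1 fails for every `C > 0` and every `ε < C`.
-/

set_option autoImplicit false

namespace Pool.Agent.Results.MP_be70a4_pr.NoThresholdConstant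

open Finset Filter Pool.Agent.R980
open scoped Classical

/-- `φ` is `G`-rigid for the points `V 0, …, V (n-1)`: it is injective and keeps the distances of
the edges of `G`. -/
def IsRigid {n : ℕ} (V : Fin n → ℝ) (G : SimpleGraph (Fin n)) (φ : Fin n → ℝ) : Prop :=
  Function.Injective φ ∧ ∀ u v, G.Adj u v → |φ u - φ v| = |V u - V v|

/-- the points with labels in `U` are reconstructible: every `G`-rigid map is an isometry on
them. -/
def Reconstructible {n : ℕ} (V : Fin n → ℝ) (G : SimpleGraph (Fin n)) (U : Finset (Fin n)) :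
    Prop :=
  ∀ φ : Fin n → ℝ, IsRigid V G φ → ∀ u ∈ U, ∀ v ∈ U, |φ u - φ v| = |V u - V v|

/-- `𝖱`: the largest size of a reconstructible subset -/
noncomputable def R {n : ℕ} (V : Fin n → ℝ) (G : SimpleGraph (Fin n)) : ℕ :=
  ((univ : Finset (Finset (Fin n))).filter fun U => Reconstructible V G U).sup card

/-- the edge probability `λ / n` with `λ = 1 + a / ln n` -/
noncomputable def edgeProb (a : ℝ) (n : ℕ) : ℝ := (1 + a / Real.log n) / n

/-- Part (i) of Q1 for the constants `C`, `ε`.  A set of `n` reals is given by an injective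
enumeration `V n`; `gnp n p A` is the probability that `G(n,p)` has the property `A`. -/
def PartI (C ε : ℝ) : Prop :=
  ∀ V : (n : ℕ) → Fin n → ℝ, (∀ n, Function.Injective (V n)) → ∃ c : ℝ, 0 < c ∧
    Tendsto (fun n : ℕ => gnp n (edgeProb (C + ε) n)
      (fun G => c * (n / Real.log n ^ 2) ≤ (R (V n) G : ℝ))) atTop (nhds 1)

/-- Part (ii) of Q1 for the constants `C`, `ε`. -/
def PartII (C ε : ℝ) : Prop :=
  ∀ V : (n : ℕ) → Fin n → ℝ, (∀ n, Function.Injective (V n)) → ∀ δ : ℝ, 0 < δ →
    Tendsto (fun n : ℕ => gnp n (edgeProb (C - ε) n)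
      (fun G => (R (V n) G : ℝ) ≤ δ * (n / Real.log n ^ 2))) atTop (nhds 1)

lemma card_le_R {n : ℕ} {V : Fin n → ℝ} {G : SimpleGraph (Fin n)} {U : Finset (Fin n)}
    (h : Reconstructible V G U) : U.card ≤ R V G :=
  Finset.le_sup (f := card) (Finset.mem_filter.2 ⟨Finset.mem_univ _, h⟩)

lemma le_R_of_cyc {n : ℕ} {V : Fin n → ℝ} (hV : LinearIndependent ℚ V) {G : SimpleGraph (Fin n)}
    {k : ℕ} {w : Fin (k + 1) → Fin n} (hw : T9h83.RG.IsCyc G k w) : k + 1 ≤ R V G := by
  have h1 : Reconstructible V G (univ.image w) := by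
    intro φ hφ u hu v hv
    rw [Finset.mem_image] at hu hv
    obtain ⟨i, -, rfl⟩ := hu
    obtain ⟨j, -, rfl⟩ := hv
    exact T9h83.RG.cyc_rigid hV hφ.2 hw i j
  have h2 := card_le_R h1
  rwa [Finset.card_image_of_injective _ hw.2.1, Finset.card_univ, Fintype.card_fin] at h2

lemma tendsto_pow (κ : ℝ) (hκ : 0 < κ) (m : ℕ) :
    Tendsto (fun n : ℕ => (κ / Real.log n) ^ m * n) atTop atTop := by
  have h1 : Tendsto (fun x : ℝ => x / Real.log x ^ m) atTop atTop := by
    have h2 : (fun x : ℝ => Real.log x ^ m) =o[atTop] fun x => x := by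
      have := isLittleO_log_rpow_rpow_atTop (s := 1) (m : ℝ) one_pos
      simpa using this
    have h3 : Tendsto (fun x : ℝ => Real.log x ^ m / x) atTop (nhds 0) := h2.tendsto_div_nhds_zero
    have h4 : Tendsto (fun x : ℝ => Real.log x ^ m / x) atTop (nhdsWithin 0 (Set.Ioi 0)) := by
      rw [tendsto_nhdsWithin_iff]
      refine ⟨h3, ?_⟩
      filter_upwards [eventually_gt_atTop (1 : ℝ)] with x hx
      have : 0 < Real.log x := Real.log_pos hx
      show 0 < Real.log x ^ m / x
      positivity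
    have h5 := h4.inv_tendsto_nhdsGT_zero
    refine h5.congr fun x => ?_
    simp [inv_div]
  have h2 : Tendsto (fun n : ℕ => (n : ℝ) / Real.log n ^ m) atTop atTop :=
    h1.comp tendsto_natCast_atTop_atTop
  have h3 : Tendsto (fun n : ℕ => κ ^ m * ((n : ℝ) / Real.log n ^ m)) atTop atTop :=
    h2.const_mul_atTop (by positivity)
  refine h3.congr fun n => ?_
  rw [div_pow]
  ring

/-- long cycles are reconstructible over `ℚ`-independent points -/
theorem independent_points (κ : ℝ) (hκ : 0 < κ) (V : (n : ℕ) → Fin n → ℝ)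
    (hV : ∀ n, LinearIndependent ℚ (V n)) :
    Tendsto (fun n : ℕ => gnp n (edgeProb κ n)
      (fun G => κ ^ 2 / 384 * (n / Real.log n ^ 2) ≤ (R (V n) G : ℝ))) atTop (nhds 1) := by
  have hexp : ∀ (m : ℕ) (D : ℝ), 0 < D → Tendsto (fun n : ℕ =>
      Real.exp (-((κ / Real.log n) ^ m * n / D))) atTop (nhds 0) := by
    intro m D hD
    exact Real.tendsto_exp_neg_atTop_nhds_zero.comp ((tendsto_pow κ hκ m).atTop_div_const hD)
  have hlog : Tendsto (fun n : ℕ => Real.log n) atTop atTop :=
    Real.tendsto_log_atTop.comp tendsto_natCast_atTop_atTop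
  have hlow : Tendsto (fun n : ℕ => 1 - (Real.exp (-((κ / Real.log n) ^ 3 * n / 32768)) +
      Real.exp (-((κ / Real.log n) ^ 5 * n / 589824)))) atTop (nhds 1) := by
    have h1 := (hexp 3 32768 (by norm_num)).add (hexp 5 589824 (by norm_num))
    have h2 := h1.const_sub 1
    simpa using h2
  refine tendsto_of_tendsto_of_tendsto_of_le_of_le' hlow tendsto_const_nhds ?_ ?_
  · filter_upwards [(tendsto_pow κ hκ 2).eventually_ge_atTop 1536,
      hlog.eventually_ge_atTop (4 * κ + 1), eventually_ge_atTop 1] with n h1 h2 h3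
    have hn : NeZero n := ⟨by omega⟩
    have hl : 0 < Real.log n := by linarith
    obtain ⟨δ, hδ⟩ : ∃ δ, δ = κ / Real.log n := ⟨_, rfl⟩
    have hδ0 : 0 < δ := by rw [hδ]; positivity
    have hδ1 : δ ≤ 1 / 4 := by
      rw [hδ, div_le_iff₀ hl]
      linarith
    rw [← hδ] at h1 ⊢
    have h4 := T9h83.RG.cycle_prob (n := n) hδ0 hδ1 h1 rfl
    have hn0 : (0 : ℝ) < n := by exact_mod_cast h3
    have hp : edgeProb κ n = (1 + δ) / n := by rw [edgeProb, hδ]
    rw [hp]
    have hp0 : 0 ≤ (1 + δ) / (n : ℝ) := by positivity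
    have hp1 : (1 + δ) / (n : ℝ) ≤ 1 := by
      rw [div_le_one hn0]
      have : δ ^ 2 ≤ 1 / 16 := by nlinarith
      nlinarith
    have h5 := gnp_add_not (n := n) (p := (1 + δ) / (n : ℝ))
      (fun G => κ ^ 2 / 384 * (n / Real.log n ^ 2) ≤ (R (V n) G : ℝ))
    have h6 : gnp n ((1 + δ) / (n : ℝ)) (fun G => ¬ κ ^ 2 / 384 * (n / Real.log n ^ 2) ≤
        (R (V n) G : ℝ)) ≤ gnp n ((1 + δ) / (n : ℝ)) (fun G => ¬ ∃ k, ∃ w : Fin (k + 1) → Fin n,
        δ ^ 2 * n / 384 ≤ (k : ℝ) + 1 ∧ T9h83.RG.IsCyc G k w) := by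
      refine gnp_mono hp0 hp1 fun G hG => ?_
      rintro ⟨k, w, hk, hw⟩
      apply hG
      have h7 := le_R_of_cyc (hV n) hw
      have h8 : ((k + 1 : ℕ) : ℝ) ≤ (R (V n) G : ℝ) := by exact_mod_cast h7
      push_cast at h8
      have h9 : κ ^ 2 / 384 * (n / Real.log n ^ 2) = δ ^ 2 * n / 384 := by
        rw [hδ, div_pow]
        field_simp
      rw [h9]
      linarith
    linarith
  · filter_upwards [hlog.eventually_ge_atTop (4 * κ + 1), eventually_ge_atTop 2] with n h2 h3
    have hl : 0 < Real.log n := by linarith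
    have hn0 : (2 : ℝ) ≤ n := by exact_mod_cast h3
    have hδ1 : κ / Real.log n ≤ 1 / 4 := by
      rw [div_le_iff₀ hl]
      linarith
    have hδ0 : 0 < κ / Real.log n := by positivity
    refine gnp_le_one ?_ ?_ _
    · unfold edgeProb
      positivity
    · unfold edgeProb
      rw [div_le_one (by linarith)]
      linarith

lemma exists_independent : ∃ V : (n : ℕ) → Fin n → ℝ, ∀ n, LinearIndependent ℚ (V n) := by
  have h : ∀ n : ℕ, ∃ V : Fin n → ℝ, LinearIndependent ℚ V := by
    intro n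
    have h1 : ((n : ℕ) : Cardinal) ≤ Module.rank ℚ ℝ := by
      rw [Real.rank_rat_real]
      exact (Cardinal.nat_lt_continuum n).le
    obtain ⟨s, hs1, hs2⟩ := le_rank_iff_exists_linearIndependent_finset.1 h1
    have e : Fin n ≃ s := (Fintype.equivFinOfCardEq (by simpa using hs1)).symm
    exact ⟨fun i => (e i : ℝ), hs2.comp e e.injective⟩
  choose V hV using h
  exact ⟨V, hV⟩

theorem partII_false (C ε : ℝ) (h : ε < C) : ¬ PartII C ε := by
  intro hII
  obtain ⟨V, hV⟩ := exists_independent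
  obtain ⟨κ, hκ⟩ : ∃ κ, κ = C - ε := ⟨_, rfl⟩
  have hκ0 : 0 < κ := by rw [hκ]; linarith
  have h1 := independent_points κ hκ0 V hV
  have h2 := hII V (fun n => (hV n).injective) (κ ^ 2 / 768) (by positivity)
  rw [← hκ] at h2
  have hlog : Tendsto (fun n : ℕ => Real.log n) atTop atTop :=
    Real.tendsto_log_atTop.comp tendsto_natCast_atTop_atTop
  have e1 := h1.eventually (eventually_gt_nhds (show (3 / 4 : ℝ) < 1 by norm_num))
  have e2 := h2.eventually (eventually_gt_nhds (show (3 / 4 : ℝ) < 1 by norm_num))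
  obtain ⟨n, h3, h4, h5, h6⟩ := (e1.and (e2.and ((hlog.eventually_ge_atTop (4 * κ + 1)).and
    (eventually_ge_atTop 2)))).exists
  have hl : 0 < Real.log n := by linarith
  have hn0 : (2 : ℝ) ≤ n := by exact_mod_cast h6
  have hδ1 : κ / Real.log n ≤ 1 / 4 := by
    rw [div_le_iff₀ hl]
    linarith
  have hδ0 : 0 < κ / Real.log n := by positivity
  have hp0 : 0 ≤ edgeProb κ n := by
    unfold edgeProb
    positivity
  have hp1 : edgeProb κ n ≤ 1 := by
    unfold edgeProb
    rw [div_le_one (by linarith)]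
    linarith
  have h7 := gnp_add_not (n := n) (p := edgeProb κ n)
    (fun G => κ ^ 2 / 384 * (n / Real.log n ^ 2) ≤ (R (V n) G : ℝ))
  have h8 : gnp n (edgeProb κ n) (fun G => (R (V n) G : ℝ) ≤ κ ^ 2 / 768 * (n / Real.log n ^ 2)) ≤
      gnp n (edgeProb κ n) (fun G => ¬ κ ^ 2 / 384 * (n / Real.log n ^ 2) ≤ (R (V n) G : ℝ)) := by
    refine gnp_mono hp0 hp1 fun G hG => ?_
    rw [not_le]
    refine lt_of_le_of_lt hG ?_
    have h9 : 0 < (n : ℝ) / Real.log n ^ 2 := by positivity
    refine mul_lt_mul_of_pos_right ?_ h9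
    have : 0 < κ ^ 2 := by positivity
    linarith
  linarith

/-- **Q1 is false**: no constant `C > 0` has properties (i) and (ii) for all `ε > 0`.  Moreover
for every `κ > 0` and every sequence of `ℚ`-linearly independent sets of `n` reals, the graph
`G(V, λ/n)` with `λ = 1 + κ / ln n` has with high probability a reconstructible subset with at
least `κ² / 384 · n / ln² n` points, so that (ii) fails for all `C` and all `ε < C`. -/
theorem result :
    (¬ ∃ C : ℝ, 0 < C ∧ ∀ ε : ℝ, 0 < ε → PartI C ε ∧ PartII C ε) ∧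
    (∀ C ε : ℝ, ε < C → ¬ PartII C ε) ∧
    (∀ κ : ℝ, 0 < κ → ∀ V : (n : ℕ) → Fin n → ℝ, (∀ n, LinearIndependent ℚ (V n)) →
      Tendsto (fun n : ℕ => gnp n (edgeProb κ n)
        (fun G => κ ^ 2 / 384 * (n / Real.log n ^ 2) ≤ (R (V n) G : ℝ))) atTop (nhds 1)) := by
  refine ⟨?_, partII_false, independent_points⟩
  rintro ⟨C, hC, h⟩
  exact partII_false C (C / 2) (by linarith) (h (C / 2) (by positivity)).2

end Pool.Agent.Results.MP_be70a4_pr.NoThresholdConstant
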